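import Mathlib

set_option autoImplicit false

namespace Pool.Agent.H28.Cone

open MvPolynomial

/-- a ring homomorphism out of a quadratic algebra. -/
def qLift {P B : Type} [CommRing P] [CommRing B] {a : P} (g : P →+* B) (U : B) (h : U * U = g a) :
    QuadraticAlgebra P a 0 →+* B where
  toFun z := g z.re + g z.im * U
  map_one' := by rw [QuadraticAlgebra.re_one, QuadraticAlgebra.im_one]; simp
  map_zero' := by simp
  map_add' z w := by simp; ring
  map_mul' z w := by
    simp only [QuadraticAlgebra.re_mul, QuadraticAlgebra.im_mul, map_add, map_mul,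
      zero_mul, add_zero]
    linear_combination (-(g z.im * g w.im)) * h

section
variable {A : Type} [CommRing A] (x : Fin 2 → A)

/-- the coordinate ring `A[p, q, u] / (x p + y q - u²)`. -/
abbrev R : Type := QuadraticAlgebra (MvPolynomial (Fin 2) A) (C (x 0) * X 0 + C (x 1) * X 1) 0

/-- the structure map -/
noncomputable def toR : A →+* R x := (algebraMap (MvPolynomial (Fin 2) A) (R x)).comp C

noncomputable def pq (i : Fin 2) : R x := algebraMap (MvPolynomial (Fin 2) A) (R x) (X i)

noncomputable def uu : R x := ⟨0, 1⟩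

theorem uu_sq : uu x * uu x = toR x (x 0) * pq x 0 + toR x (x 1) * pq x 1 := by
  unfold uu toR pq
  ext <;> simp

theorem toR_re (a : A) : (toR x a).re = C a := rfl
theorem toR_im (a : A) : (toR x a).im = 0 := rfl

/-- induction principle -/
theorem R_induction {T : R x → Prop} (hC : ∀ a, T (toR x a)) (hpq : ∀ i, T (pq x i)) (hu : T (uu x))
    (hadd : ∀ r s, T r → T s → T (r + s)) (hmul : ∀ r s, T r → T s → T (r * s)) (r : R x) : T r := by
  have h1 : ∀ f : MvPolynomial (Fin 2) A, T (algebraMap _ (R x) f) := by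
    intro f
    induction f using MvPolynomial.induction_on with
    | C a => exact hC a
    | add f g hf hg => rw [map_add]; exact hadd _ _ hf hg
    | mul_X f i hf => rw [map_mul]; exact hmul _ _ hf (hpq i)
  have h2 : r = algebraMap _ (R x) r.re + algebraMap _ (R x) r.im * uu x := by
    unfold uu
    ext <;> simp
  rw [h2]
  exact hadd _ _ (h1 _) (hmul _ _ (h1 _) hu)

variable {L : Type} [CommRing L] [Algebra A L] (i : Fin 2)

/-- the other index -/
def oth (i : Fin 2) : Fin 2 := 1 - i

theorem oth_ne : oth i ≠ i := by fin_cases i <;> decide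

variable [hL : IsLocalization.Away (x i) L]

/-- the map to the chart ring `L[q, u]` on polynomials. -/
noncomputable def evP : MvPolynomial (Fin 2) A →+* MvPolynomial (Fin 2) L :=
  eval₂Hom (C.comp (algebraMap A L)) (fun k => if k = i then
    C (IsLocalization.Away.invSelf (x i)) * (X 1 ^ 2 - C (algebraMap A L (x (oth i))) * X 0) else X 0)

theorem evP_C (a : A) : evP (L := L) x i (C a) = C (algebraMap A L a) := by simp [evP]

theorem evP_self : evP (L := L) x i (X i) =
    C (IsLocalization.Away.invSelf (x i)) * (X 1 ^ 2 - C (algebraMap A L (x (oth i))) * X 0) := by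
  simp [evP]

theorem evP_oth : evP (L := L) x i (X (oth i)) = X 0 := by simp [evP, oth_ne]

theorem ev_rel : (X 1 : MvPolynomial (Fin 2) L) * X 1 =
    evP x i (C (x 0) * X 0 + C (x 1) * X 1) := by
  have h : algebraMap A L (x i) * IsLocalization.Away.invSelf (x i) = 1 :=
    IsLocalization.Away.mul_invSelf (x i)
  have h2 : (C (algebraMap A L (x i)) : MvPolynomial (Fin 2) L) *
      C (IsLocalization.Away.invSelf (x i)) = 1 := by rw [← C_mul, h, C_1]
  have h3 : C (x 0) * X 0 + C (x 1) * X 1 =
      C (x i) * X i + C (x (oth i)) * (X (oth i) : MvPolynomial (Fin 2) A) := by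
    fin_cases i
    · rfl
    · show _ = C (x 1) * X 1 + C (x 0) * X 0
      ring
  rw [h3, map_add, map_mul, map_mul, evP_C, evP_C, evP_self, evP_oth, ← mul_assoc, h2]
  ring

/-- the map to the chart ring. -/
noncomputable def chart : R x →+* MvPolynomial (Fin 2) L := qLift (evP x i) (X 1) (ev_rel x i)

theorem chart_toR (a : A) : chart (L := L) x i (toR x a) = C (algebraMap A L a) := by
  simp [chart, qLift, toR_re, toR_im, evP_C]

theorem chart_comp : (chart (L := L) x i).comp (toR x) = (C).comp (algebraMap A L) :=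
  RingHom.ext fun a => chart_toR x i a

theorem chart_alg (f : MvPolynomial (Fin 2) A) :
    chart (L := L) x i (algebraMap _ (R x) f) = evP x i f := by
  simp [chart, qLift]

theorem chart_uu : chart (L := L) x i (uu x) = X 1 := by
  simp [chart, qLift, uu]

/-- the section `A[q, u] → R`. -/
noncomputable def iota : MvPolynomial (Fin 2) A →+* R x :=
  eval₂Hom (toR x) (fun k => if k = 0 then pq x (oth i) else uu x)

theorem iota_C (a : A) : iota x i (C a) = toR x a := by simp [iota]
theorem iota_0 : iota x i (X 0) = pq x (oth i) := by simp [iota]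
theorem iota_1 : iota x i (X 1) = uu x := by simp [iota]

theorem chart_iota_X : ∀ k : Fin 2, chart (L := L) x i (iota x i (X k)) = X k := by
  rw [Fin.forall_fin_two]
  constructor
  · rw [iota_0, pq, chart_alg, evP_oth]
  · rw [iota_1, chart_uu]

theorem chart_iota (G : MvPolynomial (Fin 2) A) :
    chart (L := L) x i (iota x i G) = MvPolynomial.map (algebraMap A L) G := by
  induction G using MvPolynomial.induction_on with
  | C a => rw [iota_C, chart_toR, map_C]
  | add f g hf hg => rw [map_add, map_add, map_add, hf, hg]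
  | mul_X f k hf => rw [map_mul, map_mul, map_mul, hf, map_X, chart_iota_X]

theorem rel_oth : ∀ k : Fin 2, uu x * uu x - toR x (x (oth k)) * pq x (oth k) =
    toR x (x k) * pq x k := by
  rw [Fin.forall_fin_two]
  rw [uu_sq]
  constructor
  · show _ - toR x (x 1) * pq x 1 = _
    rw [add_sub_cancel_right]
  · show _ - toR x (x 0) * pq x 0 = _
    rw [add_sub_cancel_left]

theorem eq_oth {i k : Fin 2} (h : k ≠ i) : k = oth i := by
  revert h; revert i k; decide

theorem exists_iota (r : R x) : ∃ (n : ℕ) (G : MvPolynomial (Fin 2) A),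
    toR x (x i) ^ n * r = iota x i G := by
  induction r using R_induction x with
  | hC a => exact ⟨0, C a, by rw [iota_C]; simp⟩
  | hpq k =>
    by_cases hk : k = i
    · subst hk
      refine ⟨1, X 1 ^ 2 - C (x (oth k)) * X 0, ?_⟩
      rw [map_sub, map_mul, map_pow, iota_1, iota_0, iota_C, pow_one, pow_two, rel_oth]
    · have : k = oth i := eq_oth hk
      subst this
      exact ⟨0, X 0, by rw [iota_0]; simp⟩
  | hu => exact ⟨0, X 1, by rw [iota_1]; simp⟩
  | hadd r s hr hs =>
    obtain ⟨n, G, hG⟩ := hr
    obtain ⟨m, H, hH⟩ := hs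
    refine ⟨n + m, C (x i) ^ m * G + C (x i) ^ n * H, ?_⟩
    rw [map_add, map_mul, map_mul, map_pow, map_pow, iota_C, ← hG, ← hH]
    ring
  | hmul r s hr hs =>
    obtain ⟨n, G, hG⟩ := hr
    obtain ⟨m, H, hH⟩ := hs
    refine ⟨n + m, G * H, ?_⟩
    rw [map_mul, ← hG, ← hH]
    ring

theorem exists_chart (z : MvPolynomial (Fin 2) L) : ∃ (n : ℕ) (r : R x),
    z * C (algebraMap A L (x i)) ^ n = chart x i r := by
  induction z using MvPolynomial.induction_on with
  | C a =>
    obtain ⟨⟨b, ⟨c, n, rfl⟩⟩, hb⟩ := IsLocalization.surj (Submonoid.powers (x i)) a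
    refine ⟨n, toR x b, ?_⟩
    rw [chart_toR, ← C_pow, ← C_mul]
    simp only [map_pow] at hb
    rw [hb]
  | add f g hf hg =>
    obtain ⟨n, r, hr⟩ := hf
    obtain ⟨m, s, hs⟩ := hg
    refine ⟨n + m, r * toR x (x i) ^ m + s * toR x (x i) ^ n, ?_⟩
    rw [map_add, map_mul, map_mul, map_pow, map_pow, ← hr, ← hs, chart_toR]
    ring
  | mul_X f k hf =>
    obtain ⟨n, r, hr⟩ := hf
    refine ⟨n, r * iota x i (X k), ?_⟩
    rw [map_mul, ← hr, chart_iota, map_X]
    ring

theorem isLocalization_chart (hinj : Function.Injective (algebraMap A L)) :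
    @IsLocalization _ _ ((Submonoid.powers (x i)).map (toR x)) (MvPolynomial (Fin 2) L) _
      (chart x i).toAlgebra := by
  letI := (chart (L := L) x i).toAlgebra
  rw [Submonoid.map_powers]
  rw [isLocalization_iff]
  refine ⟨?_, ?_, ?_⟩
  · rintro ⟨y, n, rfl⟩
    show IsUnit (chart x i (toR x (x i) ^ n))
    rw [map_pow, chart_toR]
    apply IsUnit.pow
    apply IsUnit.map
    exact IsLocalization.Away.algebraMap_isUnit (x i)
  · intro z
    obtain ⟨n, r, hr⟩ := exists_chart x i z
    refine ⟨(r, ⟨_, n, rfl⟩), ?_⟩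
    show z * chart x i (toR x (x i) ^ n) = chart x i r
    rw [map_pow, chart_toR, hr]
  · intro r s hrs
    change chart x i r = chart x i s at hrs
    obtain ⟨n, G, hG⟩ := exists_iota x i (r - s)
    refine ⟨⟨_, n, rfl⟩, ?_⟩
    have h1 : chart (L := L) x i (iota x i G) = 0 := by
      rw [← hG, map_mul, map_sub, hrs, sub_self, mul_zero]
    rw [chart_iota] at h1
    have h2 : G = 0 := MvPolynomial.map_injective _ hinj (by rw [h1, map_zero])
    rw [h2, map_zero, mul_sub, sub_eq_zero] at hG
    exact hG

end

end Pool.Agent.H28.Cone
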