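import Pool.Agent.H28.Cone.Alg

set_option autoImplicit false

namespace Pool.Agent.H28.Cone

open AlgebraicGeometry CategoryTheory CategoryTheory.Limits
open MvPolynomial

abbrev A : Type := MvPolynomial (Fin 2) ℂ
abbrev K : Type := ℂ
abbrev B (σ : Type) : Type := MvPolynomial σ A

/-- the coordinate ring of the cone -/
abbrev Q : Type := R (A := A) (fun i => X i)

/-- Spec of the structure map -/
noncomputable abbrev fQ : Spec (CommRingCat.of Q) ⟶ Spec (CommRingCat.of A) :=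
  Spec.map (CommRingCat.ofHom (toR (A := A) (fun i => X i)))

noncomputable abbrev sA : Spec (CommRingCat.of A) ⟶ Spec (CommRingCat.of ℂ) :=
  Spec.map (CommRingCat.ofHom (algebraMap ℂ A))

noncomputable abbrev tn (n : ℕ) : Spec (CommRingCat.of (MvPolynomial (Fin n) ℂ)) ⟶ Spec (CommRingCat.of ℂ) :=
  Spec.map (CommRingCat.ofHom (algebraMap ℂ (MvPolynomial (Fin n) ℂ)))

attribute [local instance] MvPolynomial.algebraMvPolynomial in
/-- base change of polynomial rings -/
theorem isPullback_poly (L : Type) [CommRing L] [Algebra ℂ L] (n : ℕ) :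
    IsPullback (Spec.map (CommRingCat.ofHom (algebraMap L (MvPolynomial (Fin n) L))))
      (Spec.map (CommRingCat.ofHom (MvPolynomial.map (σ := Fin n) (algebraMap ℂ L))))
      (Spec.map (CommRingCat.ofHom (algebraMap ℂ L))) (tn n) :=
  isPullback_SpecMap_of_isPushout _ _ _ _
    (CommRingCat.isPushout_of_isPushout ℂ L (MvPolynomial (Fin n) ℂ) (MvPolynomial (Fin n) L))

theorem isPullback_chart (i : Fin 2) (L : Type) [CommRing L] [Algebra A L]
    [IsLocalization.Away (X i : A) L] (hinj : Function.Injective (algebraMap A L)) :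
    IsPullback (Spec.map (CommRingCat.ofHom (algebraMap L (MvPolynomial (Fin 2) L))))
      (Spec.map (CommRingCat.ofHom (chart (A := A) (L := L) (fun i => X i) i)))
      (Spec.map (CommRingCat.ofHom (algebraMap A L))) fQ := by
  letI := (chart (A := A) (L := L) (fun i => X i) i).toAlgebra
  haveI := isLocalization_chart (A := A) (L := L) (fun i => X i) i hinj
  have h := CommRingCat.isPushout_of_isLocalization (toR (A := A) (fun i => X i))
    (algebraMap L (MvPolynomial (Fin 2) L)) (chart_comp (A := A) (L := L) (fun i => X i) i).symm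
    (Submonoid.powers (X i : A))
  exact (isPullback_SpecMap_of_isPushout _ _ _ _ h).flip

theorem chart_iso (i : Fin 2) {U : (Spec (CommRingCat.of A)).Opens}
    (hU : (PrimeSpectrum.basicOpen (X i : A) : (Spec (CommRingCat.of A)).Opens) ≤ U)
    {V : U.toScheme.Opens}
    (hV : V = U.ι ⁻¹ᵁ (PrimeSpectrum.basicOpen (X i : A) : (Spec (CommRingCat.of A)).Opens)) :
    ∃ e : ((fQ ∣_ U) ⁻¹ᵁ V).toScheme ≅
      pullback (V.ι ≫ U.ι ≫ sA) (tn 2), e.hom ≫ pullback.fst (V.ι ≫ U.ι ≫ sA) (tn 2) =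
        (fQ ∣_ U) ∣_ V := by
  let L := Localization.Away (X i : A)
  have hinj : Function.Injective (algebraMap A L) := by
    apply IsLocalization.injective (M := Submonoid.powers (X i : A))
    exact powers_le_nonZeroDivisors_of_noZeroDivisors (X_ne_zero i)
  let j : Spec (CommRingCat.of L) ⟶ Spec (CommRingCat.of A) :=
    Spec.map (CommRingCat.ofHom (algebraMap A L))
  have hj : IsOpenImmersion j := inferInstance
  have hrange : Set.range (V.ι ≫ U.ι) = Set.range j := by
    have h1 : Set.range j = (PrimeSpectrum.basicOpen (X i : A) : Set (PrimeSpectrum A)) :=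
      PrimeSpectrum.localization_away_comap_range L (X i : A)
    rw [h1]
    ext z
    constructor
    · rintro ⟨w, rfl⟩
      have h3 : ∀ z : U.toScheme, z ∈ V → z ∈ U.ι ⁻¹ᵁ (PrimeSpectrum.basicOpen (X i : A) :
          (Spec (CommRingCat.of A)).Opens) := fun z hz => hV ▸ hz
      exact h3 _ w.2
    · intro hz
      have hzU : z ∈ U := hU hz
      refine ⟨⟨⟨z, hzU⟩, ?_⟩, rfl⟩
      rw [hV]
      exact hz
  let φ : V.toScheme ≅ Spec (CommRingCat.of L) := IsOpenImmersion.isoOfRangeEq (V.ι ≫ U.ι) j hrange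
  have hφ : φ.inv ≫ V.ι ≫ U.ι = j := IsOpenImmersion.isoOfRangeEq_inv_fac _ _ hrange
  -- the given square
  have P1 : IsPullback ((fQ ∣_ U) ∣_ V) (((fQ ∣_ U) ⁻¹ᵁ V).ι ≫ (fQ ⁻¹ᵁ U).ι) (V.ι ≫ U.ι) fQ :=
    (isPullback_morphismRestrict (fQ ∣_ U) V).paste_vert (isPullback_morphismRestrict fQ U)
  -- the square of localizations
  have P2 := isPullback_chart i L hinj
  have P2' : IsPullback (Spec.map (CommRingCat.ofHom (algebraMap L (MvPolynomial (Fin 2) L))) ≫ φ.inv)
      (Spec.map (CommRingCat.ofHom (chart (A := A) (L := L) (fun i => X i) i))) (V.ι ≫ U.ι) fQ :=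
    P2.of_iso (Iso.refl _) φ.symm (Iso.refl _) (Iso.refl _) (by simp) (by simp)
      (by simp [hφ, j]) (by simp)
  have P3 := isPullback_poly L 2
  have P3' : IsPullback (Spec.map (CommRingCat.ofHom (algebraMap L (MvPolynomial (Fin 2) L))) ≫ φ.inv)
      (Spec.map (CommRingCat.ofHom (MvPolynomial.map (σ := Fin 2) (algebraMap ℂ L))))
      (V.ι ≫ U.ι ≫ sA) (tn 2) := by
    refine P3.of_iso (Iso.refl _) φ.symm (Iso.refl _) (Iso.refl _) (by simp) (by simp) ?_ (by simp)
    have h1 : φ.inv ≫ V.ι ≫ U.ι ≫ sA = j ≫ sA := by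
      rw [← hφ]; simp
    simp only [Iso.refl_hom, Category.comp_id, Iso.symm_hom]
    rw [h1]
    show _ = Spec.map _ ≫ Spec.map _
    rw [← Spec.map_comp, ← CommRingCat.ofHom_comp, ← IsScalarTower.algebraMap_eq]
  refine ⟨(P1.isoIsPullback _ _ P2') ≪≫ P3'.isoPullback, ?_⟩
  simp

theorem locally_trivial {U : (Spec (CommRingCat.of A)).Opens}
    (hU : U = (PrimeSpectrum.basicOpen (MvPolynomial.X 0 : MvPolynomial (Fin 2) ℂ) ⊔
          PrimeSpectrum.basicOpen (MvPolynomial.X 1 : MvPolynomial (Fin 2) ℂ) :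
          (Spec (CommRingCat.of (MvPolynomial (Fin 2) ℂ))).Opens)) (v : U.toScheme) :
    ∃ V : U.toScheme.Opens, v ∈ V ∧ ∃ e : ((fQ ∣_ U) ⁻¹ᵁ V).toScheme ≅
      pullback (V.ι ≫ U.ι ≫ sA) (tn 2), e.hom ≫ pullback.fst (V.ι ≫ U.ι ≫ sA) (tn 2) =
        (fQ ∣_ U) ∣_ V := by
  obtain ⟨i, hi⟩ : ∃ i : Fin 2, U.ι v ∈ (PrimeSpectrum.basicOpen (X i : A) :
      (Spec (CommRingCat.of A)).Opens) := by
    have h1 : U.ι v ∈ (PrimeSpectrum.basicOpen (MvPolynomial.X 0 : MvPolynomial (Fin 2) ℂ) ⊔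
          PrimeSpectrum.basicOpen (MvPolynomial.X 1 : MvPolynomial (Fin 2) ℂ) :
          (Spec (CommRingCat.of (MvPolynomial (Fin 2) ℂ))).Opens) := by
      rw [← hU]; exact v.2
    rcases h1 with h1 | h1
    · exact ⟨0, h1⟩
    · exact ⟨1, h1⟩
  refine ⟨U.ι ⁻¹ᵁ (PrimeSpectrum.basicOpen (X i : A) : (Spec (CommRingCat.of A)).Opens), hi,
    chart_iso i ?_ rfl⟩
  rw [hU]
  revert i
  rw [Fin.forall_fin_two]
  exact ⟨fun _ => le_sup_left, fun _ => le_sup_right⟩

end Pool.Agent.H28.Cone
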