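import Mathlib

set_option autoImplicit false

namespace Pool.Agent.H28.Cone

open AlgebraicGeometry CategoryTheory Opposite TopologicalSpace

/-- a regular pair of nonzerodivisors -/
structure Reg {S : Type} [CommRing S] (a b : S) : Prop where
  nza : ∀ r, a * r = 0 → r = 0
  nzb : ∀ r, b * r = 0 → r = 0
  reg : ∀ r s, b * r = a * s → ∃ t, r = a * t

theorem nz_pow {S : Type} [CommRing S] {a : S} (h : ∀ r, a * r = 0 → r = 0) (n : ℕ) :
    ∀ r, a ^ n * r = 0 → r = 0 := by
  induction n with
  | zero => intro r hr; simpa using hr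
  | succ n ih =>
    intro r hr
    apply h
    apply ih
    rw [← hr]; ring

theorem Reg.reg' {S : Type} [CommRing S] {a b : S} (h : Reg a b) (m : ℕ) :
    ∀ r s, b ^ m * r = a * s → ∃ t, r = a * t := by
  induction m with
  | zero => intro r s hr; exact ⟨s, by simpa using hr⟩
  | succ m ih =>
    intro r s hr
    obtain ⟨t, ht⟩ := ih (b * r) s (by rw [← hr]; ring)
    exact h.reg r t ht

theorem Reg.pow {S : Type} [CommRing S] {a b : S} (h : Reg a b) (m n : ℕ) :
    ∀ r s, b ^ m * r = a ^ n * s → ∃ t, r = a ^ n * t := by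
  induction n with
  | zero => intro r s _; exact ⟨r, by simp⟩
  | succ n ih =>
    intro r s hr
    obtain ⟨t, ht⟩ := h.reg' m r (a ^ n * s) (by rw [hr]; ring)
    have h2 : b ^ m * t = a ^ n * s := by
      have : a * (b ^ m * t - a ^ n * s) = 0 := by
        rw [ht] at hr
        linear_combination hr
      exact sub_eq_zero.mp (h.nza _ this)
    obtain ⟨t', ht'⟩ := ih t s h2
    exact ⟨t', by rw [ht, ht']; ring⟩

variable {X : Scheme.{0}}

/-- restriction of global sections -/
abbrev res (W : X.Opens) : Γ(X, ⊤) ⟶ Γ(X, W) := X.presheaf.map (homOfLE le_top : W ⟶ ⊤).op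

theorem res_comp {V W : X.Opens} (h : V ≤ W) (s : Γ(X, ⊤)) :
    X.presheaf.map (homOfLE h).op (res W s) = res V s := by
  rw [← CommRingCat.comp_apply, ← X.presheaf.map_comp]
  rfl

theorem res_bijective [IsAffine X] {f g : Γ(X, ⊤)} (h : Reg f g) {W : X.Opens}
    (hW : W = X.basicOpen f ⊔ X.basicOpen g) : Function.Bijective (res W) := by
  have hf : X.basicOpen f ≤ W := hW ▸ le_sup_left
  have hg : X.basicOpen g ≤ W := hW ▸ le_sup_right
  have zero_of (f' : Γ(X, ⊤)) (hnz : ∀ r, f' * r = 0 → r = 0) (s : Γ(X, ⊤))
      (hs : res (X.basicOpen f') s = 0) : s = 0 := by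
    have hloc := isLocalization_away_of_isAffine (X := X) f'
    have h1 : algebraMap Γ(X, ⊤) Γ(X, X.basicOpen f') s = algebraMap Γ(X, ⊤) Γ(X, X.basicOpen f') 0 := by
      rw [map_zero]; exact hs
    obtain ⟨⟨c, n, rfl⟩, hc⟩ := (IsLocalization.eq_iff_exists (Submonoid.powers f') _).mp h1
    simp only [mul_zero] at hc
    exact nz_pow hnz n s hc
  constructor
  · rw [injective_iff_map_eq_zero]
    intro s hs
    apply zero_of f h.nza
    rw [← res_comp hf, hs, map_zero]
  · intro t
    have hlf := isLocalization_away_of_isAffine (X := X) f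
    have hlg := isLocalization_away_of_isAffine (X := X) g
    obtain ⟨⟨r1, ⟨_, n, rfl⟩⟩, h1⟩ := IsLocalization.surj (Submonoid.powers f)
      (X.presheaf.map (homOfLE hf).op t)
    obtain ⟨⟨r2, ⟨_, m, rfl⟩⟩, h2⟩ := IsLocalization.surj (Submonoid.powers g)
      (X.presheaf.map (homOfLE hg).op t)
    change X.presheaf.map (homOfLE hf).op t * res _ (f ^ n) = res _ r1 at h1
    change X.presheaf.map (homOfLE hg).op t * res _ (g ^ m) = res _ r2 at h2
    -- compare on the intersection
    have hfg : X.basicOpen (f * g) ≤ X.basicOpen f := by rw [Scheme.basicOpen_mul]; exact inf_le_left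
    have hfg' : X.basicOpen (f * g) ≤ X.basicOpen g := by rw [Scheme.basicOpen_mul]; exact inf_le_right
    have h1' := congrArg (X.presheaf.map (homOfLE hfg).op) h1
    have h2' := congrArg (X.presheaf.map (homOfLE hfg').op) h2
    rw [map_mul, res_comp, res_comp, ← CommRingCat.comp_apply, ← X.presheaf.map_comp] at h1' h2'
    have h3 : res (X.basicOpen (f * g)) (g ^ m * r1 - f ^ n * r2) = 0 := by
      rw [map_sub, map_mul, map_mul, ← h1', ← h2']
      have : (homOfLE hf).op ≫ (homOfLE hfg).op = (homOfLE hg).op ≫ (homOfLE hfg').op := rfl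
      rw [this]
      ring
    have h4 : g ^ m * r1 - f ^ n * r2 = 0 := by
      apply zero_of (f * g) _ _ h3
      intro r hr
      exact h.nzb _ (h.nza _ (by rw [← hr]; ring))
    obtain ⟨c, hc⟩ := h.pow m n r1 r2 (sub_eq_zero.mp h4)
    have hc2 : r2 = g ^ m * c := by
      have : f ^ n * (r2 - g ^ m * c) = 0 := by
        rw [hc] at h4
        linear_combination -h4
      exact sub_eq_zero.mp (nz_pow h.nza n _ this)
    refine ⟨c, ?_⟩
    apply X.sheaf.eq_of_locally_eq₂ (homOfLE hf) (homOfLE hg) hW.le
    · change X.presheaf.map (homOfLE hf).op (res W c) = X.presheaf.map (homOfLE hf).op t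
      rw [res_comp]
      have hu : IsUnit (res (X.basicOpen f) (f ^ n)) := by
        rw [map_pow]
        exact (IsLocalization.Away.algebraMap_isUnit f).pow n
      apply hu.mul_right_cancel
      rw [h1, hc, ← map_mul]
      congr 1
      ring
    · change X.presheaf.map (homOfLE hg).op (res W c) = X.presheaf.map (homOfLE hg).op t
      rw [res_comp]
      have hu : IsUnit (res (X.basicOpen g) (g ^ m)) := by
        rw [map_pow]
        exact (IsLocalization.Away.algebraMap_isUnit g).pow m
      apply hu.mul_right_cancel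
      rw [h2, hc2, ← map_mul]
      congr 1
      ring

/-- If an open of an affine scheme is affine and all its functions extend uniquely, it is everything. -/
theorem eq_top_of_affine [IsAffine X] {W : X.Opens} (hb : Function.Bijective (res W))
    (hW : IsAffineOpen W) : W = ⊤ := by
  have h1 := (isAffineOpen_top X).map_fromSpec hW (homOfLE le_top : W ⟶ ⊤).op
  have hiso : IsIso (X.presheaf.map (homOfLE le_top : W ⟶ ⊤).op) := by
    rw [ConcreteCategory.isIso_iff_bijective]
    exact hb
  have hs : Function.Surjective (hW.fromSpec) := by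
    have h2 : Surjective (isAffineOpen_top X).fromSpec := ⟨by
      rw [← Set.range_eq_univ]
      exact (isAffineOpen_top X).range_fromSpec⟩
    have h4 : Surjective (Spec.map (X.presheaf.map (homOfLE le_top : W ⟶ ⊤).op) ≫
      (isAffineOpen_top X).fromSpec) := inferInstance
    rw [h1] at h4
    exact h4.surj
  have h3 := hW.range_fromSpec
  rw [Set.range_eq_univ.mpr hs] at h3
  ext x
  constructor
  · intro _; trivial
  · intro _
    show x ∈ (W : Set X)
    rw [← h3]; trivial

end Pool.Agent.H28.Cone
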