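import Pool.Agent.H28.Cone.Chart
import Pool.Agent.H28.Cone.Gam

set_option autoImplicit false

namespace Pool.Agent.H28.Cone

open AlgebraicGeometry CategoryTheory CategoryTheory.Limits
open MvPolynomial

theorem regA (c d : A) (h : X 1 * c = X 0 * d) : (X 0 : A) ∣ c := by
  have h1 : (X 0 : A) ∣ X 1 * c := ⟨d, h⟩
  rw [X_dvd_mul_iff] at h1
  rcases h1 with h1 | h1
  · rw [X_dvd_X] at h1
    exact absurd h1 (by decide)
  · exact h1

theorem reg_poly : Reg (C (X 0) : MvPolynomial (Fin 2) A) (C (X 1)) := by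
  refine ⟨?_, ?_, ?_⟩
  · intro r hr
    rcases mul_eq_zero.mp hr with h | h
    · rw [C_eq_zero] at h; exact absurd h (X_ne_zero 0)
    · exact h
  · intro r hr
    rcases mul_eq_zero.mp hr with h | h
    · rw [C_eq_zero] at h; exact absurd h (X_ne_zero 1)
    · exact h
  · intro r s hr
    have : (C (X 0) : MvPolynomial (Fin 2) A) ∣ r := by
      rw [C_dvd_iff_dvd_coeff]
      intro m
      have h := congrArg (coeff m) hr
      rw [coeff_C_mul, coeff_C_mul] at h
      exact regA _ _ h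
    exact this

theorem reg_Q : Reg (toR (A := A) (fun i => X i) (X 0)) (toR (A := A) (fun i => X i) (X 1)) := by
  have hre : ∀ (a : A) (r : Q), (toR (A := A) (fun i => X i) a * r).re = C a * r.re := by
    intro a r
    rw [QuadraticAlgebra.re_mul, toR_re, toR_im]; ring
  have him : ∀ (a : A) (r : Q), (toR (A := A) (fun i => X i) a * r).im = C a * r.im := by
    intro a r
    rw [QuadraticAlgebra.im_mul, toR_re, toR_im]; ring
  refine ⟨?_, ?_, ?_⟩
  · intro r hr
    ext1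
    · exact reg_poly.nza _ (by rw [← hre, hr]; rfl)
    · exact reg_poly.nza _ (by rw [← him, hr]; rfl)
  · intro r hr
    ext1
    · exact reg_poly.nzb _ (by rw [← hre, hr]; rfl)
    · exact reg_poly.nzb _ (by rw [← him, hr]; rfl)
  · intro r s hr
    obtain ⟨t1, h1⟩ := reg_poly.reg r.re s.re (by rw [← hre, hr, hre])
    obtain ⟨t2, h2⟩ := reg_poly.reg r.im s.im (by rw [← him, hr, him])
    refine ⟨⟨t1, t2⟩, ?_⟩
    ext1
    · rw [hre, h1]
    · rw [him, h2]

theorem Reg.map {S T : Type} [CommRing S] [CommRing T] {a b : S} (h : Reg a b) (e : S ≃+* T) :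
    Reg (e a) (e b) := by
  refine ⟨?_, ?_, ?_⟩
  · intro r hr
    have : a * e.symm r = 0 := by
      apply e.injective; rw [map_mul, e.apply_symm_apply, hr, map_zero]
    have := h.nza _ this
    simpa using this
  · intro r hr
    have : b * e.symm r = 0 := by
      apply e.injective; rw [map_mul, e.apply_symm_apply, hr, map_zero]
    have := h.nzb _ this
    simpa using this
  · intro r s hr
    obtain ⟨t, ht⟩ := h.reg (e.symm r) (e.symm s) (by
      apply e.injective; rw [map_mul, map_mul, e.apply_symm_apply, e.apply_symm_apply, hr])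
    refine ⟨e t, ?_⟩
    rw [← map_mul, ← ht, e.apply_symm_apply]

/-- the punctured plane -/
abbrev IsU (U : (Spec (CommRingCat.of A)).Opens) : Prop :=
  U = (PrimeSpectrum.basicOpen (MvPolynomial.X 0 : MvPolynomial (Fin 2) ℂ) ⊔
          PrimeSpectrum.basicOpen (MvPolynomial.X 1 : MvPolynomial (Fin 2) ℂ) :
          (Spec (CommRingCat.of (MvPolynomial (Fin 2) ℂ))).Opens)

section
variable {S : Type} [CommRing S] (g : A →+* S) (hg : Reg (g (X 0)) (g (X 1)))
  {U : (Spec (CommRingCat.of A)).Opens} (hU : IsU U)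

/-- the morphism of spectra -/
noncomputable abbrev sg : Spec (CommRingCat.of S) ⟶ Spec (CommRingCat.of A) :=
  Spec.map (CommRingCat.ofHom g)

/-- the function on the spectrum -/
noncomputable abbrev fn (s : S) : Γ(Spec (CommRingCat.of S), ⊤) :=
  (Scheme.ΓSpecIso (CommRingCat.of S)).inv s

include hg in
theorem reg_fn : Reg (fn (g (X 0))) (fn (g (X 1))) :=
  hg.map (Scheme.ΓSpecIso (CommRingCat.of S)).symm.commRingCatIsoToRingEquiv

include hU in
theorem preimage_eq : sg g ⁻¹ᵁ U = (Spec (CommRingCat.of S)).basicOpen (fn (g (X 0))) ⊔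
    (Spec (CommRingCat.of S)).basicOpen (fn (g (X 1))) := by
  rw [hU]
  rw [basicOpen_eq_of_affine, basicOpen_eq_of_affine]
  rfl

include hg hU in
theorem appTop_bijective : Function.Bijective (sg g ⁻¹ᵁ U).ι.appTop := by
  have h := res_bijective (reg_fn g hg) (W := (sg g ⁻¹ᵁ U).ι ''ᵁ ⊤)
    (by rw [Scheme.Opens.ι_image_top, preimage_eq g hU])
  exact h

include hg hU in
theorem not_isAffine (hS : ∃ δ : S →+* ℂ, δ (g (X 0)) = 0 ∧ δ (g (X 1)) = 0) :
    ¬ IsAffine (sg g ⁻¹ᵁ U).toScheme := by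
  intro h
  have h1 := eq_top_of_affine (res_bijective (reg_fn g hg) (preimage_eq g hU)) h
  obtain ⟨δ, h0, h2⟩ := hS
  let z : Spec (CommRingCat.of S) := PrimeSpectrum.comap δ ⊥
  have hz : z ∈ sg g ⁻¹ᵁ U := by rw [h1]; trivial
  rw [hU] at hz
  rcases hz with hz | hz
  · exact hz (by show δ (g (X 0)) ∈ (⊥ : Ideal ℂ); rw [h0]; exact Ideal.zero_mem _)
  · exact hz (by show δ (g (X 1)) ∈ (⊥ : Ideal ℂ); rw [h2]; exact Ideal.zero_mem _)

end

/-- the cone has a point over the origin. -/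
theorem exists_point : ∃ δ : Q →+* ℂ, δ (toR (A := A) (fun i => X i) (X 0)) = 0 ∧
    δ (toR (A := A) (fun i => X i) (X 1)) = 0 := by
  refine ⟨qLift (eval₂Hom (constantCoeff (σ := Fin 2) (R := ℂ)) (fun _ => 0)) 0 ?_, ?_, ?_⟩
  · simp
  · simp [qLift, toR_re, toR_im]
  · simp [qLift, toR_re, toR_im]

/-- there is no isomorphism of `A`-algebras between the polynomial ring and the cone. -/
theorem no_iso (Θ : MvPolynomial (Fin 2) A ≃+* Q)
    (hΘ : ∀ a : A, Θ (C a) = toR (A := A) (fun i => X i) a) : False := by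
  let D := QuadraticAlgebra ℂ 0 0
  let c : A →+* D := (algebraMap ℂ D).comp (constantCoeff (σ := Fin 2) (R := ℂ))
  let ε : D := ⟨0, 1⟩
  have hε : ε * ε = 0 := by
    ext <;> simp [ε, D]
  let δ : Q →+* D := qLift (eval₂Hom c (fun _ => 0)) ε (by rw [hε]; simp [c])
  have hδ : ∀ a : A, δ (toR (A := A) (fun i => X i) a) = c a := by
    intro a
    simp [δ, qLift, toR_re, toR_im]
  have hδu : δ (uu (A := A) (fun i => X i)) = ε := by
    simp [δ, qLift, uu]
  let w : MvPolynomial (Fin 2) A := Θ.symm (uu (A := A) (fun i => X i))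
  have hw : w * w = C (X 0) * Θ.symm (pq (A := A) (fun i => X i) 0) +
      C (X 1) * Θ.symm (pq (A := A) (fun i => X i) 1) := by
    apply Θ.injective
    rw [map_mul, map_add, map_mul, map_mul, hΘ, hΘ, Θ.apply_symm_apply, Θ.apply_symm_apply,
      Θ.apply_symm_apply, uu_sq]
  let ev : MvPolynomial (Fin 2) A →+* MvPolynomial (Fin 2) ℂ :=
    MvPolynomial.map (constantCoeff (σ := Fin 2) (R := ℂ))
  have hev : ev w = 0 := by
    have h1 := congrArg ev hw
    rw [map_mul, map_add, map_mul, map_mul] at h1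
    have h2 : ev (C (X 0)) = 0 := by simp [ev]
    have h3 : ev (C (X 1)) = 0 := by simp [ev]
    rw [h2, h3, zero_mul, zero_mul, add_zero] at h1
    exact mul_self_eq_zero.mp h1
  have hfac : δ.comp (Θ : MvPolynomial (Fin 2) A →+* Q) =
      (eval₂Hom (algebraMap ℂ D) (fun i => δ (Θ (X i)))).comp ev := by
    apply MvPolynomial.ringHom_ext
    · intro a
      simp only [RingHom.comp_apply, RingHom.coe_coe]
      rw [hΘ, hδ]
      simp [ev, c]
    · intro i
      simp [ev]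
  have h4 := congrArg (fun k => k w) hfac
  simp only [RingHom.comp_apply, RingHom.coe_coe] at h4
  rw [hev, map_zero] at h4
  have h5 : Θ w = uu (A := A) (fun i => X i) := Θ.apply_symm_apply _
  rw [h5, hδu] at h4
  have h6 := congrArg QuadraticAlgebra.im h4
  simp [ε, D] at h6

theorem fn_map {S : Type} [CommRing S] (g : A →+* S) (a : A) :
    fn (g a) = (sg g).appTop (fn a) := by
  have h := Scheme.ΓSpecIso_inv_naturality (CommRingCat.ofHom g)
  have h2 := congrArg (fun k => k.hom a) h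
  exact h2

theorem not_trivial {U : (Spec (CommRingCat.of A)).Opens} (hU : IsU U)
    (e : (fQ ⁻¹ᵁ U).toScheme ≅ pullback (U.ι ≫ sA) (tn 2))
    (he : e.hom ≫ pullback.fst (U.ι ≫ sA) (tn 2) = fQ ∣_ U) : False := by
  let g : A →+* MvPolynomial (Fin 2) A := C
  let toq : A →+* Q := toR (A := A) (fun i => X i)
  have P4 := isPullback_morphismRestrict (sg g) U
  have P5 : IsPullback (sg g)
      (Spec.map (CommRingCat.ofHom (MvPolynomial.map (σ := Fin 2) (algebraMap ℂ A)))) sA (tn 2) :=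
    isPullback_poly A 2
  have P := P4.paste_vert P5
  let ψ : (fQ ⁻¹ᵁ U).toScheme ≅ (sg g ⁻¹ᵁ U).toScheme := e ≪≫ P.isoPullback.symm
  have h1 : ψ.hom ≫ (sg g ∣_ U) = fQ ∣_ U := by
    simp only [ψ, Iso.trans_hom, Iso.symm_hom, Category.assoc]
    rw [IsPullback.isoPullback_inv_fst, he]
  have h2 : ψ.hom ≫ (sg g ⁻¹ᵁ U).ι ≫ sg g = (fQ ⁻¹ᵁ U).ι ≫ fQ := by
    rw [← morphismRestrict_ι, ← morphismRestrict_ι, ← Category.assoc, h1]
  have h3 : (sg g).appTop ≫ (sg g ⁻¹ᵁ U).ι.appTop ≫ ψ.hom.appTop =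
      fQ.appTop ≫ (fQ ⁻¹ᵁ U).ι.appTop := by
    rw [← Scheme.Hom.comp_appTop, ← Scheme.Hom.comp_appTop, ← Scheme.Hom.comp_appTop]
    rw [Category.assoc, h2]
  have hβg := appTop_bijective g reg_poly hU
  have hβf := appTop_bijective toq reg_Q hU
  let E1 := (Scheme.ΓSpecIso (CommRingCat.of (MvPolynomial (Fin 2) A))).symm.commRingCatIsoToRingEquiv
  let E2 := RingEquiv.ofBijective (sg g ⁻¹ᵁ U).ι.appTop.hom hβg
  let E3 : Γ((sg g ⁻¹ᵁ U).toScheme, ⊤) ≃+* Γ((sg toq ⁻¹ᵁ U).toScheme, ⊤) :=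
    (Scheme.Γ.mapIso ψ.op).commRingCatIsoToRingEquiv
  let E4 := RingEquiv.ofBijective (sg toq ⁻¹ᵁ U).ι.appTop.hom hβf
  let E5 := (Scheme.ΓSpecIso (CommRingCat.of Q)).symm.commRingCatIsoToRingEquiv
  let Θ : MvPolynomial (Fin 2) A ≃+* Q := E1.trans (E2.trans (E3.trans (E4.symm.trans E5.symm)))
  refine no_iso Θ ?_
  intro a
  show E5.symm (E4.symm (E3 (E2 (E1 (C a))))) = toq a
  refine (RingEquiv.symm_apply_eq E5).mpr ((RingEquiv.symm_apply_eq E4).mpr ?_)
  show ψ.hom.appTop ((sg g ⁻¹ᵁ U).ι.appTop (fn (g a))) = (sg toq ⁻¹ᵁ U).ι.appTop (fn (toq a))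
  rw [fn_map, fn_map]
  have h4 := congrArg (fun k => k.hom (fn a)) h3
  exact h4

theorem main : ¬ (∀ (n : ℕ), 1 < n →
  ∀ (U : (Spec (CommRingCat.of (MvPolynomial (Fin 2) ℂ))).Opens),
    U = (PrimeSpectrum.basicOpen (MvPolynomial.X 0 : MvPolynomial (Fin 2) ℂ) ⊔
          PrimeSpectrum.basicOpen (MvPolynomial.X 1 : MvPolynomial (Fin 2) ℂ) :
          (Spec (CommRingCat.of (MvPolynomial (Fin 2) ℂ))).Opens) →
  ∀ (X : Scheme.{0}) (p : X ⟶ U.toScheme),
    (∀ x : U.toScheme, ∃ V : U.toScheme.Opens, x ∈ V ∧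
      ∃ e : (p ⁻¹ᵁ V).toScheme ≅
          pullback (V.ι ≫ U.ι ≫ Spec.map (CommRingCat.ofHom (algebraMap ℂ (MvPolynomial (Fin 2) ℂ))))
            (Spec.map (CommRingCat.ofHom (algebraMap ℂ (MvPolynomial (Fin n) ℂ)))),
        e.hom ≫ pullback.fst
            (V.ι ≫ U.ι ≫ Spec.map (CommRingCat.ofHom (algebraMap ℂ (MvPolynomial (Fin 2) ℂ))))
            (Spec.map (CommRingCat.ofHom (algebraMap ℂ (MvPolynomial (Fin n) ℂ))))
          = p ∣_ V) →
    ((∃ e : X ≅
          pullback (U.ι ≫ Spec.map (CommRingCat.ofHom (algebraMap ℂ (MvPolynomial (Fin 2) ℂ))))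
            (Spec.map (CommRingCat.ofHom (algebraMap ℂ (MvPolynomial (Fin n) ℂ)))),
        e.hom ≫ pullback.fst
            (U.ι ≫ Spec.map (CommRingCat.ofHom (algebraMap ℂ (MvPolynomial (Fin 2) ℂ))))
            (Spec.map (CommRingCat.ofHom (algebraMap ℂ (MvPolynomial (Fin n) ℂ))))
          = p) ↔ ¬ IsAffine X)) := by
  intro H
  have h := H 2 (by norm_num) _ rfl (fQ ⁻¹ᵁ _).toScheme (fQ ∣_ _) (fun x => locally_trivial rfl x)
  obtain ⟨e, he⟩ := h.mpr (not_isAffine _ reg_Q rfl exists_point)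
  exact not_trivial rfl e he

end Pool.Agent.H28.Cone
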